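import Pool.Agent.Y798.OG.Stm3
import Pool.Agent.Y960.OG.Alg
import Pool.Agent.Y574.OG.AlgB

set_option autoImplicit false

/-!
# Orbit sums without repetitions are integer combinations of words (OG-SURE, OG-SURO)
-/

namespace Pool.Agent.Y590.OG

open Finset UnitAddTorus Polynomial Pool.Agent.Y798.FC Pool.Agent.Y139.ID
  Pool.Agent.H70FC.Words Pool.Agent.Y798.OG

variable {g : ℕ}

open Classical in
/-- the rearrangements of the absolute values -/
noncomputable def Lm (μ : Fin g → ℤ) : Finset (Fin g → ℕ) :=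
  univ.image fun σ : Equiv.Perm (Fin g) => fun i => (μ (σ i)).natAbs

theorem mem_Lm {μ : Fin g → ℤ} {l : Fin g → ℕ} :
    l ∈ Lm μ ↔ ∃ σ : Equiv.Perm (Fin g), ∀ i, l i = (μ (σ i)).natAbs := by
  unfold Lm
  rw [mem_image]
  constructor
  · rintro ⟨σ, _, rfl⟩
    exact ⟨σ, fun i => rfl⟩
  · rintro ⟨σ, h⟩
    exact ⟨σ, mem_univ _, (funext h).symm⟩

theorem Lm_comp {μ : Fin g → ℤ} {l : Fin g → ℕ} (hl : l ∈ Lm μ) (τ : Equiv.Perm (Fin g)) :
    (fun i => l (τ i)) ∈ Lm μ := by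
  obtain ⟨σ, h⟩ := mem_Lm.1 hl
  exact mem_Lm.2 ⟨σ * τ, fun i => h (τ i)⟩

/-- the two integers of absolute value `k` -/
def pm (k : ℕ) : Finset ℤ := {(k : ℤ), -(k : ℤ)}

theorem mem_pm {k : ℕ} {a : ℤ} : a ∈ pm k ↔ a.natAbs = k := by
  unfold pm
  rw [mem_insert, mem_singleton, Int.natAbs_eq_iff]

theorem exists_c (k : ℕ) : ∃ P : ℤ[X], ∀ z : ℂ, z ≠ 0 →
    aeval (z + z⁻¹) P = ∑ a ∈ pm k, z ^ a := by
  rcases Nat.eq_zero_or_pos k with rfl | hk
  · refine ⟨1, fun z _ => ?_⟩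
    simp [pm]
  · obtain ⟨P, hP⟩ := exists_pz k
    refine ⟨P, fun z hz => ?_⟩
    have hne : (k : ℤ) ≠ -(k : ℤ) := by omega
    rw [hP z hz, pm, sum_pair hne]

open Classical in
theorem orbS_eq (μ : Fin g → ℤ) :
    orbS (sympW g) μ = ((Lm μ).biUnion fun l => Fintype.piFinset fun i => pm (l i) : Finset _) := by
  ext ν
  rw [mem_coe, mem_biUnion]
  constructor
  · rintro ⟨w, ⟨σ, s, hw⟩, rfl⟩
    refine ⟨fun i => (μ (σ i)).natAbs, mem_Lm.2 ⟨σ, fun i => rfl⟩, ?_⟩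
    rw [Fintype.mem_piFinset]
    intro i
    rw [mem_pm, hw, Int.natAbs_mul, Int.units_natAbs, one_mul]
  · rintro ⟨l, hl, hν⟩
    obtain ⟨σ, hσ⟩ := mem_Lm.1 hl
    rw [Fintype.mem_piFinset] at hν
    refine ⟨_, (Pool.Agent.Y674.FC.toW g (σ, fun i => if ν i = μ (σ i) then 1 else -1)).2, ?_⟩
    funext i
    show ((if ν i = μ (σ i) then 1 else -1 : ℤˣ) : ℤ) * μ (σ i) = ν i
    have h1 := mem_pm.1 (hν i)
    rw [hσ] at h1
    rcases Int.natAbs_eq_natAbs_iff.1 h1 with h2 | h2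
    · rw [if_pos h2, h2]
      simp
    · by_cases h3 : ν i = μ (σ i)
      · rw [if_pos h3, h3]
        simp
      · rw [if_neg h3, h2]
        simp

theorem core (μ : Fin g → ℤ) : ∃ Q : MvPolynomial (Fin g) ℤ, Q.IsSymmetric ∧
    ∀ x : UnitAddTorus (Fin g), MvPolynomial.aeval (yy x) Q = msum (sympW g) μ x := by
  classical
  choose P hP using exists_c
  refine ⟨∑ l ∈ Lm μ, ∏ i, Polynomial.aeval (MvPolynomial.X i : MvPolynomial (Fin g) ℤ) (P (l i)),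
    ?_, fun x => ?_⟩
  · intro τ
    rw [map_sum]
    refine sum_nbij' (fun l => fun i => l (τ⁻¹ i)) (fun l => fun i => l (τ i))
      (fun l hl => Lm_comp hl _) (fun l hl => Lm_comp hl _) (fun l _ => ?_) (fun l _ => ?_)
      (fun l _ => ?_)
    · funext i
      simp
    · funext i
      simp
    · rw [map_prod, ← Equiv.prod_comp τ (fun i => Polynomial.aeval
        (MvPolynomial.X i : MvPolynomial (Fin g) ℤ) (P (l (τ⁻¹ i))))]
      refine prod_congr rfl fun i _ => ?_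
      rw [← Polynomial.aeval_algHom_apply, MvPolynomial.rename_X]
      simp
  · unfold msum
    rw [orbS_eq, finsum_mem_coe_finset, sum_biUnion, map_sum]
    · refine sum_congr rfl fun l _ => ?_
      have h1 : ∀ ν : Fin g → ℤ, mFourier ν x = ∏ i, ev x i ^ ν i := fun ν => mFourier_ev ν x
      simp only [h1]
      rw [← prod_univ_sum (fun i => pm (l i)) (fun i a => ev x i ^ a), map_prod]
      refine prod_congr rfl fun i _ => ?_
      rw [← Polynomial.aeval_algHom_apply, MvPolynomial.aeval_X, yy, hP _ _ (ev_ne x _)]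
    · intro l _ l' _ hll
      rw [Function.onFun, disjoint_left]
      intro ν h1 h2
      apply hll
      rw [Fintype.mem_piFinset] at h1 h2
      funext i
      rw [← mem_pm.1 (h1 i), ← mem_pm.1 (h2 i)]

/-- job OG-SURE -/
theorem sure : StmSurE := by
  intro m
  refine ⟨fun μ => ?_, fun μ => ?_⟩
  · obtain ⟨Q, hQ, h⟩ := core μ
    obtain ⟨F, hF, hF'⟩ := Pool.Agent.Y960.OG.Alg.sym_gen (Pool.Agent.Y960.OG.Alg.RR m) Sum.inl
      (fun k hk => Pool.Agent.Y960.OG.Alg.E_pos m k hk) Q hQ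
    obtain ⟨G, hG, hG'⟩ := Pool.Agent.Y960.OG.Alg.mem_RR.1 hF
    exact ⟨G, hG, fun x => by rw [← h x, ← hF' x, hG']; rfl⟩
  · obtain ⟨Q, hQ, h⟩ := core μ
    obtain ⟨F, hF, hF'⟩ := Pool.Agent.Y960.OG.Alg.sym_gen (Pool.Agent.Y960.OG.Alg.RR m) Sum.inr
      (fun k hk => Pool.Agent.Y960.OG.Alg.E_neg m k hk) Q hQ
    obtain ⟨G, hG, hG'⟩ := Pool.Agent.Y960.OG.Alg.mem_RR.1 hF
    exact ⟨G, hG, fun x => by rw [← h x, ← hF' x, hG']; rfl⟩

/-- job OG-SURO -/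
theorem suro : StmSurO := by
  intro m μ
  obtain ⟨Q, hQ, h⟩ := core μ
  obtain ⟨F, hF, hF'⟩ := Pool.Agent.Y960.OG.Alg.sym_gen (Pool.Agent.Y574.OG.SB m) id
    (fun k hk => by
      obtain ⟨G, hG, hG'⟩ := mem_Sub.1 (E_mem (g := m) hk)
      refine ⟨_, Pool.Agent.Y574.OG.comp_mem hG, fun x => (hG' x).symm⟩) Q hQ
  obtain ⟨G, hG, hG'⟩ := Pool.Agent.Y574.OG.mem_SB.1 hF
  exact ⟨⟨G, hG, fun x => by rw [(hG' x).1, ← h x, ← hF' x]; rfl⟩,
    ⟨G, hG, fun x => by rw [(hG' x).2, ← h x, ← hF' x]; rfl⟩⟩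

end Pool.Agent.Y590.OG
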